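import Pool.Agent.QSB.StmtsA

/-!
# Squad QSB, row GEN (helper57)
-/

set_option autoImplicit false

namespace Pool.Agent.QSB.H57

open Matrix Finset Pool.Agent.QSX Pool.Agent.QSN

theorem ue_zero {m : ℕ} : ue (0 : Matrix (Fin m) (Fin m) ℝ) = 1 := by
  apply Units.ext
  rw [ue_val SU.zero, mexp_zero]
  rfl

theorem ue_add_comm {m : ℕ} {a b : Matrix (Fin m) (Fin m) ℝ} (ha : SU a) (hb : SU b)
    (h : a * b = b * a) : ue (a + b) = ue a * ue b := by
  apply Units.ext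
  rw [Units.val_mul, ue_val ha, ue_val hb, ue_val (ha.add hb)]
  exact mexp_add ha hb h

theorem ue_neg' {m : ℕ} {a : Matrix (Fin m) (Fin m) ℝ} (ha : SU a) :
    ue (-a) = (ue a)⁻¹ := by
  apply Units.ext
  rw [ue_val ha.neg, ue_inv_val ha]

/-- products of exponentials in a group of class two -/
theorem ue_list2 {m : ℕ} (bc2 : Bc2Stmt) (U1 U2 : AddSubgroup (Matrix (Fin m) (Fin m) ℝ))
    (su1 : ∀ a ∈ U1, SU a) (su2 : ∀ a ∈ U2, SU a)
    (br : ∀ a ∈ U1, ∀ b ∈ U1, a * b - b * a ∈ U2 ∧ (1 / 2 : ℝ) • (a * b - b * a) ∈ U2)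
    (cen : ∀ z ∈ U2, ∀ a ∈ U1, z * a = a * z) (ab : ∀ z ∈ U2, ∀ z' ∈ U2, z * z' = z' * z)
    {α : Type} (f : α → Matrix (Fin m) (Fin m) ℝ) (L : List α) (hL : ∀ a ∈ L, f a ∈ U1) :
    (L.map f).sum ∈ U1 ∧
      ∃ z ∈ U2, (L.map fun a => ue (f a)).prod = ue ((L.map f).sum) * ue z := by
  induction L with
  | nil => exact ⟨U1.zero_mem, 0, U2.zero_mem, by simp [ue_zero]⟩
  | cons a L ih =>
    obtain ⟨i1, z, hz, i2⟩ := ih fun b hb => hL b (List.mem_cons_of_mem _ hb)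
    have ha := hL a List.mem_cons_self
    rw [List.map_cons, List.sum_cons, List.map_cons, List.prod_cons, i2]
    refine ⟨U1.add_mem ha i1, (1 / 2 : ℝ) • (f a * (L.map f).sum - (L.map f).sum * f a) + z,
      U2.add_mem (br _ ha _ i1).2 hz, ?_⟩
    have h1 := bc2 m (f a) ((L.map f).sum) (su1 _ ha) (su1 _ i1)
      (cen _ (br _ ha _ i1).1 _ ha) (cen _ (br _ ha _ i1).1 _ i1)
    rw [← mul_assoc, h1, mul_assoc, ue_add_comm (su2 _ (br _ ha _ i1).2) (su2 _ hz)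
      (ab _ (br _ ha _ i1).2 _ hz)]

/-- the rational combinations of the root vectors of the root `ρ` -/
def Us {X : Dat} (hX : MB X) (ρ : X.b →ₗ[ℝ] ℝ) : AddSubgroup (Matrix (Fin X.m) (Fin X.m) ℝ) :=
  AddSubgroup.closure {A | ∃ (s : hX.ι) (x : ℚ), hX.rt s = ρ ∧ A = (x : ℝ) • hX.e s}

section

variable {X : Dat} (hX : MB X)

theorem Us_gen {ρ : X.b →ₗ[ℝ] ℝ} (s : hX.ι) (x : ℚ) (hs : hX.rt s = ρ) :
    (x : ℝ) • hX.e s ∈ Us hX ρ := AddSubgroup.subset_closure ⟨s, x, hs, rfl⟩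

theorem Us_span {ρ : X.b →ₗ[ℝ] ℝ} {A : Matrix (Fin X.m) (Fin X.m) ℝ} (hA : A ∈ Us hX ρ) :
    A ∈ Submodule.span ℝ (hX.e '' {t | hX.rt t = ρ}) := by
  unfold Us at hA
  induction hA using AddSubgroup.closure_induction with
  | mem A h =>
    obtain ⟨s, x, hs, rfl⟩ := h
    exact Submodule.smul_mem _ _ (Submodule.subset_span ⟨s, hs, rfl⟩)
  | zero => exact Submodule.zero_mem _
  | add a b _ _ h1 h2 => exact Submodule.add_mem _ h1 h2
  | neg a _ h1 => exact Submodule.neg_mem _ h1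

theorem span_su {ρ : X.b →ₗ[ℝ] ℝ} {A : Matrix (Fin X.m) (Fin X.m) ℝ}
    (hA : A ∈ Submodule.span ℝ (hX.e '' {t | hX.rt t = ρ})) : SU A := by
  apply X.su
  have : Submodule.span ℝ (hX.e '' {t | hX.rt t = ρ}) ≤ X.n := by
    rw [← hX.span_e]
    apply Submodule.span_mono
    rintro _ ⟨s, -, rfl⟩
    exact ⟨s, rfl⟩
  exact this hA

theorem Us_su {ρ : X.b →ₗ[ℝ] ℝ} {A : Matrix (Fin X.m) (Fin X.m) ℝ} (hA : A ∈ Us hX ρ) : SU A :=
  span_su hX (Us_span hX hA)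

theorem Us_smul {ρ : X.b →ₗ[ℝ] ℝ} (q : ℚ) {A : Matrix (Fin X.m) (Fin X.m) ℝ}
    (hA : A ∈ Us hX ρ) : (q : ℝ) • A ∈ Us hX ρ := by
  unfold Us at hA
  induction hA using AddSubgroup.closure_induction with
  | mem A h =>
    obtain ⟨s, x, hs, rfl⟩ := h
    have := Us_gen hX s (q * x) hs
    rw [smul_smul]
    push_cast at this
    exact this
  | zero => rw [smul_zero]; exact AddSubgroup.zero_mem _
  | add a b _ _ h1 h2 => rw [smul_add]; exact AddSubgroup.add_mem _ h1 h2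
  | neg a _ h1 => rw [smul_neg]; exact AddSubgroup.neg_mem _ h1

/-- brackets of rational combinations are rational combinations -/
theorem Us_br {ρ : X.b →ₗ[ℝ] ℝ} {a b : Matrix (Fin X.m) (Fin X.m) ℝ}
    (ha : a ∈ Us hX ρ) (hb : b ∈ Us hX ρ) : a * b - b * a ∈ Us hX ((2 : ℝ) • ρ) := by
  have hb' := hb
  unfold Us at ha
  induction ha using AddSubgroup.closure_induction with
  | mem A h =>
    obtain ⟨s, x, hs, rfl⟩ := h
    unfold Us at hb
    induction hb using AddSubgroup.closure_induction with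
    | mem B h =>
      obtain ⟨s', y, hs', rfl⟩ := h
      obtain ⟨c, hc, e⟩ := hX.self s s' (by rw [hs, hs'])
      have e1 : ((x : ℝ) • hX.e s) * ((y : ℝ) • hX.e s') - ((y : ℝ) • hX.e s') *
          ((x : ℝ) • hX.e s) = ∑ t, (((x * y * c t : ℚ)) : ℝ) • hX.e t := by
        rw [smul_mul_smul_comm, smul_mul_smul_comm, mul_comm (y : ℝ) (x : ℝ), ← smul_sub, e,
          Finset.smul_sum]
        refine Finset.sum_congr rfl fun t _ => ?_
        rw [smul_smul]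
        push_cast
        rfl
      rw [e1]
      refine AddSubgroup.sum_mem _ fun t _ => ?_
      by_cases ht : c t = 0
      · rw [ht, mul_zero, Rat.cast_zero, zero_smul]
        exact AddSubgroup.zero_mem _
      · exact Us_gen hX t _ (by rw [hc t ht, hs])
    | zero => rw [mul_zero, zero_mul, sub_zero]; exact AddSubgroup.zero_mem _
    | add b c hb hc h1 h2 =>
      have e1 : (x : ℝ) • hX.e s * (b + c) - (b + c) * ((x : ℝ) • hX.e s) =
          ((x : ℝ) • hX.e s * b - b * ((x : ℝ) • hX.e s)) +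
          ((x : ℝ) • hX.e s * c - c * ((x : ℝ) • hX.e s)) := by
        generalize (x : ℝ) • hX.e s = Z
        noncomm_ring
      rw [e1]
      exact AddSubgroup.add_mem _ (h1 hb) (h2 hc)
    | neg b hb h1 =>
      have e1 : (x : ℝ) • hX.e s * (-b) - (-b) * ((x : ℝ) • hX.e s) =
          -((x : ℝ) • hX.e s * b - b * ((x : ℝ) • hX.e s)) := by
        generalize (x : ℝ) • hX.e s = Z
        noncomm_ring
      rw [e1]
      exact AddSubgroup.neg_mem _ (h1 hb)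
  | zero => rw [mul_zero, zero_mul, sub_zero]; exact AddSubgroup.zero_mem _
  | add a c _ _ h1 h2 =>
    have e1 : (a + c) * b - b * (a + c) = (a * b - b * a) + (c * b - b * c) := by noncomm_ring
    rw [e1]
    exact AddSubgroup.add_mem _ h1 h2
  | neg a _ h1 =>
    have e1 : (-a) * b - b * (-a) = -(a * b - b * a) := by noncomm_ring
    rw [e1]
    exact AddSubgroup.neg_mem _ h1

end

/-- the main step -/
theorem genAux (csr : CsrStmt) (cs2 : Cs2Stmt) (bc2 : Bc2Stmt) (brn : BrnStmt) (knr : KnrStmt)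
    (gls : GlsStmt) (X : Dat) (hX : MB X) (l l' : hX.ι) (hll : hX.Np l l')
    (t : hX.ι × ℕ × ℕ × ℚ) (ht : t ∈ hX.L l l') (t' : hX.ι) (htt : ¬ hX.Np t' t.1)
    (h2 : ∀ s, hX.rt s = (2 : ℝ) • hX.rt t' → ∀ x : ℚ, ue ((x : ℝ) • hX.e s) ∈ hX.K t')
    (x : ℚ) : ue ((x : ℝ) • hX.e t') ∈ hX.K t' := by
  have su1 : ∀ a ∈ Us hX (hX.rt t'), SU a := fun a ha => Us_su hX ha
  have su2 : ∀ a ∈ Us hX ((2 : ℝ) • hX.rt t'), SU a := fun a ha => Us_su hX ha
  have br : ∀ a ∈ Us hX (hX.rt t'), ∀ b ∈ Us hX (hX.rt t'),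
      a * b - b * a ∈ Us hX ((2 : ℝ) • hX.rt t') ∧
      (1 / 2 : ℝ) • (a * b - b * a) ∈ Us hX ((2 : ℝ) • hX.rt t') := by
    intro a ha b hb
    have h := Us_br hX ha hb
    refine ⟨h, ?_⟩
    have := Us_smul hX (1 / 2) h
    push_cast at this
    exact this
  have cen : ∀ z ∈ Us hX ((2 : ℝ) • hX.rt t'), ∀ a ∈ Us hX (hX.rt t'), z * a = a * z := by
    intro z hz a ha
    exact ((cs2 X hX t' a (Us_span hX ha) a (Us_span hX ha)).2.2 z (Us_span hX hz)).symm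
  have ab : ∀ z ∈ Us hX ((2 : ℝ) • hX.rt t'), ∀ z' ∈ Us hX ((2 : ℝ) • hX.rt t'),
      z * z' = z' * z := by
    intro z hz z' hz'
    have s1 := Us_span hX hz
    have s2 := Us_span hX hz'
    by_cases hs : ∃ s, hX.rt s = (2 : ℝ) • hX.rt t'
    · obtain ⟨s, hs⟩ := hs
      rw [← hs] at s1 s2
      refine csr X hX s ?_ z s1 z' s2
      intro r hr
      rw [hs, smul_smul] at hr
      rcases hX.ray r t' _ hr with h | h | h <;> norm_num at h
    · have h0 : (hX.e '' {t | hX.rt t = (2 : ℝ) • hX.rt t'}) = ∅ := by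
        rw [Set.image_eq_empty]
        ext s
        exact ⟨fun h => absurd ⟨s, h⟩ hs, fun h => absurd h (Set.notMem_empty _)⟩
      rw [h0, Submodule.span_empty, Submodule.mem_bot] at s1 s2
      rw [s1, s2]
  have hK2 : ∀ z ∈ Us hX ((2 : ℝ) • hX.rt t'), ue z ∈ hX.K t' := by
    intro z hz
    have hz' := hz
    unfold Us at hz
    induction hz using AddSubgroup.closure_induction with
    | mem A h =>
      obtain ⟨s, x, hs, rfl⟩ := h
      exact h2 s hs x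
    | zero => rw [ue_zero]; exact Subgroup.one_mem _
    | add a b ha hb h1 h3 =>
      rw [ue_add_comm (su2 a ha) (su2 b hb) (ab a ha b hb)]
      exact Subgroup.mul_mem _ (h1 ha) (h3 hb)
    | neg a ha h1 =>
      rw [ue_neg' (su2 a ha)]
      exact Subgroup.inv_mem _ (h1 ha)
  have partA : ∀ w w' : hX.ι, hX.Np w w' → hX.rt w + hX.rt w' = hX.rt t' → ∀ x : ℚ,
      (hX.e w * hX.e w' - hX.e w' * hX.e w ∈ Us hX (hX.rt t')) ∧
      ue ((x : ℝ) • (hX.e w * hX.e w' - hX.e w' * hX.e w)) ∈ hX.K t' := by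
    intro w w' hww hs x
    have n1 : hX.Np w t' := by
      intro c h
      have h1 : (1 - c) • hX.rt w + (-c) • hX.rt w' = (0 : ℝ) • hX.rt w + (0 : ℝ) • hX.rt w' := by
        have h3 : c • hX.rt w + c • hX.rt w' = hX.rt w := by rw [← smul_add, hs, ← h]
        have h4 : (1 - c) • hX.rt w + (-c) • hX.rt w' =
            hX.rt w - (c • hX.rt w + c • hX.rt w') := by
          module
        rw [h4, h3, sub_self, zero_smul, zero_smul, add_zero]
      have h3 := hX.indep hww h1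
      linarith [h3.1, h3.2]
    have n2 : hX.Np w' t' := by
      intro c h
      have h1 : (-c) • hX.rt w + (1 - c) • hX.rt w' = (0 : ℝ) • hX.rt w + (0 : ℝ) • hX.rt w' := by
        have h3 : c • hX.rt w + c • hX.rt w' = hX.rt w' := by rw [← smul_add, hs, ← h]
        have h4 : (-c) • hX.rt w + (1 - c) • hX.rt w' =
            hX.rt w' - (c • hX.rt w + c • hX.rt w') := by
          module
        rw [h4, h3, sub_self, zero_smul, zero_smul, add_zero]
      have h3 := hX.indep hww h1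
      linarith [h3.1, h3.2]
    have g1 : ue ((x : ℝ) • hX.e w) ∈ hX.K t' := Subgroup.subset_closure ⟨w, x, n1, rfl⟩
    have g2 : ue ((1 : ℝ) • hX.e w') ∈ hX.K t' :=
      Subgroup.subset_closure ⟨w', 1, n2, by rw [Rat.cast_one]⟩
    have hp1 : ∀ s ∈ hX.L w w', (s.2.1 = 1 ∧ s.2.2.1 = 1) → hX.rt s.1 = hX.rt t' := by
      rintro s hs' ⟨h2, h3⟩
      have h1 := (hX.L_rt w w' s hs').2.2
      rw [h1, h2, h3, ← hs, Nat.cast_one, one_smul, one_smul]
    have hp2 : ∀ s ∈ hX.L w w', ¬ (s.2.1 = 1 ∧ s.2.2.1 = 1) → ¬ hX.Np s.1 t' →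
        hX.rt s.1 = (2 : ℝ) • hX.rt t' := by
      intro s hs' hn hnp
      obtain ⟨c, hc⟩ := hX.np_iff.1 hnp
      have h1 := (hX.L_rt w w' s hs').2.2
      have h5 : (s.2.1 : ℝ) • hX.rt w + (s.2.2.1 : ℝ) • hX.rt w' =
          c • hX.rt w + c • hX.rt w' := by
        rw [← h1, hc, ← hs, smul_add]
      have h3 := hX.indep hww h5
      rcases hX.ray s.1 t' c hc with h | h | h
      · exfalso
        have h6 := h3.1
        rw [h] at h6
        have h7 : ((2 * s.2.1 : ℕ) : ℝ) = 1 := by push_cast; linarith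
        have h8 : 2 * s.2.1 = 1 := by exact_mod_cast h7
        omega
      · exfalso
        apply hn
        rw [h] at h3
        exact ⟨by exact_mod_cast h3.1, by exact_mod_cast h3.2⟩
      · rw [hc, h]
    have hcom := hX.com w w' hww (x : ℝ) 1
    have hmem : ((hX.L w w').map fun t => ue (((t.2.2.2 : ℝ) * (x : ℝ) ^ t.2.1 *
        (1 : ℝ) ^ t.2.2.1) • hX.e t.1)).prod ∈ hX.K t' := by
      rw [← hcom]
      exact (hX.K t').mul_mem ((hX.K t').mul_mem ((hX.K t').mul_mem g1 g2)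
        ((hX.K t').inv_mem g1)) ((hX.K t').inv_mem g2)
    have hg := gls _ _ (hX.K t') (fun t => ue (((t.2.2.2 : ℝ) * (x : ℝ) ^ t.2.1 *
        (1 : ℝ) ^ t.2.2.1) • hX.e t.1)) (fun t : hX.ι × ℕ × ℕ × ℚ => t.2.1 = 1 ∧ t.2.2.1 = 1)
        (hX.L w w') (by
          intro s hs' hp h hh
          have hr : ¬ hX.Np s.1 t' := by
            rw [hX.np_iff]
            exact ⟨1, by rw [one_smul]; exact hp1 s hs' hp⟩
          have := knr X hX t' s.1 (s.2.2.2 * x ^ s.2.1 * 1 ^ s.2.2.1) hr h hh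
          push_cast at this
          exact this) (by
          intro s hs' hp
          have hcast : (((s.2.2.2 * x ^ s.2.1 * 1 ^ s.2.2.1 : ℚ)) : ℝ) =
              (s.2.2.2 : ℝ) * (x : ℝ) ^ s.2.1 * (1 : ℝ) ^ s.2.2.1 := by
            push_cast
            rfl
          by_cases hr : hX.Np s.1 t'
          · refine Subgroup.subset_closure ⟨s.1, s.2.2.2 * x ^ s.2.1 * 1 ^ s.2.2.1, hr, ?_⟩
            rw [hcast]
          · have := h2 s.1 (hp2 s hs' hp hr) (s.2.2.2 * x ^ s.2.1 * 1 ^ s.2.2.1)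
            rw [hcast] at this
            exact this) hmem
    -- the product is an exponential
    have hbr := brn X hX w w' hww
    obtain ⟨F, hF⟩ : ∃ F : List (hX.ι × ℕ × ℕ × ℚ),
      F = (hX.L w w').filter fun t => t.2.1 = 1 ∧ t.2.2.1 = 1 := ⟨_, rfl⟩
    have hFm : ∀ s ∈ F, s ∈ hX.L w w' ∧ s.2.1 = 1 ∧ s.2.2.1 = 1 := by
      intro s hs'
      rw [hF, List.mem_filter] at hs'
      exact ⟨hs'.1, by simpa using hs'.2⟩
    have hFW : ∀ s ∈ F, ∀ y : ℚ, (y : ℝ) • hX.e s.1 ∈ Us hX (hX.rt t') := fun s hs' y =>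
      Us_gen hX s.1 y (hp1 s (hFm s hs').1 (hFm s hs').2)
    have hbr' : hX.e w * hX.e w' - hX.e w' * hX.e w =
        (F.map fun t => ((t.2.2.2 : ℚ) : ℝ) • hX.e t.1).sum := by
      rw [hbr, MB.br, hF]
    have u1 := ue_list2 bc2 _ _ su1 su2 br cen ab
      (fun s : hX.ι × ℕ × ℕ × ℚ => (s.2.2.2 : ℝ) • hX.e s.1) F
      (fun s hs' => hFW s hs' _)
    have u2 := ue_list2 bc2 _ _ su1 su2 br cen ab (fun s : hX.ι × ℕ × ℕ × ℚ =>
      (x : ℝ) • ((s.2.2.2 : ℝ) • hX.e s.1)) F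
      (fun s hs' => Us_smul hX x (hFW s hs' _))
    refine ⟨by rw [hbr']; exact u1.1, ?_⟩
    have e1 : (x : ℝ) • (F.map fun t => ((t.2.2.2 : ℚ) : ℝ) • hX.e t.1).sum =
        (F.map fun t => (x : ℝ) • (((t.2.2.2 : ℚ) : ℝ) • hX.e t.1)).sum := by
      rw [List.smul_sum, List.map_map]
      rfl
    obtain ⟨-, z, hz, u3⟩ := u2
    have e2 : (F.map fun s => ue ((x : ℝ) • ((s.2.2.2 : ℝ) • hX.e s.1))) =
        F.map fun t => ue (((t.2.2.2 : ℝ) * (x : ℝ) ^ t.2.1 *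
        (1 : ℝ) ^ t.2.2.1) • hX.e t.1) := by
      refine List.map_congr_left fun s hs' => ?_
      rw [(hFm s hs').2.1, (hFm s hs').2.2, pow_one, pow_one, mul_one, smul_smul, mul_comm]
    rw [e2, hF] at u3
    rw [hbr', e1, hF]
    have e4 : ue ((((hX.L w w').filter fun t => t.2.1 = 1 ∧ t.2.2.1 = 1).map fun t =>
        (x : ℝ) • (((t.2.2.2 : ℚ) : ℝ) • hX.e t.1)).sum) =
        (((hX.L w w').filter fun t => t.2.1 = 1 ∧ t.2.2.1 = 1).map fun t =>
          ue (((t.2.2.2 : ℝ) * (x : ℝ) ^ t.2.1 * (1 : ℝ) ^ t.2.2.1) • hX.e t.1)).prod *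
          (ue z)⁻¹ := by
      rw [u3, mul_assoc, mul_inv_cancel, mul_one]
    rw [e4]
    exact (hX.K t').mul_mem hg ((hX.K t').inv_mem (hK2 z hz))
  obtain ⟨V, hV1, hV2⟩ := hX.gen l l' hll t ht t' (hX.np_iff.1 htt)
  obtain ⟨-, z, hz, u3⟩ := ue_list2 bc2 _ _ su1 su2 br cen ab (fun w : hX.ι × hX.ι × ℚ =>
    (x : ℝ) • ((w.2.2 : ℝ) • (hX.e w.1 * hX.e w.2.1 - hX.e w.2.1 * hX.e w.1))) V
    (fun w hw => Us_smul hX x (Us_smul hX w.2.2 (partA w.1 w.2.1 (hV1 w hw).1 (hV1 w hw).2 0).1))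
  have e3 : (x : ℝ) • hX.e t' = (V.map fun w : hX.ι × hX.ι × ℚ =>
      (x : ℝ) • ((w.2.2 : ℝ) • (hX.e w.1 * hX.e w.2.1 - hX.e w.2.1 * hX.e w.1))).sum := by
    rw [hV2, List.smul_sum, List.map_map]
    rfl
  have e4 : ue ((x : ℝ) • hX.e t') = (V.map fun w : hX.ι × hX.ι × ℚ =>
      ue ((x : ℝ) • ((w.2.2 : ℝ) • (hX.e w.1 * hX.e w.2.1 - hX.e w.2.1 * hX.e w.1)))).prod *
      (ue z)⁻¹ := by
    rw [u3, ← e3, mul_assoc, mul_inv_cancel, mul_one]
  rw [e4]
  refine (hX.K t').mul_mem ?_ ((hX.K t').inv_mem (hK2 z hz))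
  apply Subgroup.list_prod_mem
  intro g hg
  obtain ⟨w, hw, rfl⟩ := List.mem_map.1 hg
  have := (partA w.1 w.2.1 (hV1 w hw).1 (hV1 w hw).2 (x * w.2.2)).2
  rw [smul_smul]
  push_cast at this
  exact this

theorem gen (csr : CsrStmt) (cs2 : Cs2Stmt) (bc2 : Bc2Stmt) (brn : BrnStmt) (knr : KnrStmt)
    (gls : GlsStmt) : GenStmt := by
  intro X hX l l' hll t ht t' htt x
  refine genAux csr cs2 bc2 brn knr gls X hX l l' hll t ht t' htt ?_ x
  intro s hs y
  have h1 : ¬ hX.Np s t' := by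
    rw [hX.np_iff]
    exact ⟨2, hs⟩
  have h2 : ¬ hX.Np s t.1 := by
    intro h
    exact h1 ((hX.np_congr htt).2 h)
  have h3 : hX.K s = hX.K t' := by
    unfold MB.K
    congr 1
    ext g
    constructor
    · rintro ⟨m, y, hm, rfl⟩
      exact ⟨m, y, (hX.np_congr h1).1 hm, rfl⟩
    · rintro ⟨m, y, hm, rfl⟩
      exact ⟨m, y, (hX.np_congr h1).2 hm, rfl⟩
  rw [← h3]
  refine genAux csr cs2 bc2 brn knr gls X hX l l' hll t ht s h2 ?_ y
  intro r hr
  exfalso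
  rw [hs, smul_smul] at hr
  rcases hX.ray r t' _ hr with h | h | h <;> norm_num at h

end Pool.Agent.QSB.H57
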