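import Pool.Agent.QSB.StmtsS

/-!
# Squad QSB, row CLB (helper57)
-/

set_option autoImplicit false

namespace Pool.Agent.QSB.H57

open Matrix Finset Pool.Agent.QSX Pool.Agent.QSB

section

variable {X : Dat}

theorem rb_wtv (R : RBas X) (t : R.ι) : WtV X (R.rt t) (R.e t) := by
  refine ⟨?_, R.wt t⟩
  rw [← R.span_e]
  exact Submodule.subset_span ⟨t, rfl⟩

theorem rb_rtv (R : RBas X) (t : R.ι) : RtV X (R.rt t) (R.e t) :=
  ⟨rb_wtv R t, R.lin.ne_zero t⟩

theorem span_wtv (R : RBas X) (ρ : X.b →ₗ[ℝ] ℝ) {x : Matrix (Fin X.m) (Fin X.m) ℝ}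
    (hx : x ∈ Submodule.span ℝ (R.e '' {t | R.rt t = ρ})) : WtV X ρ x := by
  induction hx using Submodule.span_induction with
  | mem x h =>
    obtain ⟨t, ht, rfl⟩ := h
    have h1 := rb_wtv R t
    rw [show R.rt t = ρ from ht] at h1
    exact h1
  | zero => exact ⟨X.n.zero_mem, fun c => by simp⟩
  | add x y _ _ h1 h2 =>
    refine ⟨X.n.add_mem h1.1 h2.1, fun c => ?_⟩
    rw [smul_add, ← h1.2 c, ← h2.2 c]
    noncomm_ring
  | smul r x _ h1 =>
    refine ⟨X.n.smul_mem r h1.1, fun c => ?_⟩
    rw [smul_comm, ← h1.2 c, smul_sub, mul_smul_comm, smul_mul_assoc]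

theorem comm_span (x : Matrix (Fin X.m) (Fin X.m) ℝ) {U : Set (Matrix (Fin X.m) (Fin X.m) ℝ)}
    (hU : ∀ u ∈ U, x * u - u * x = 0) {z : Matrix (Fin X.m) (Fin X.m) ℝ}
    (hz : z ∈ Submodule.span ℝ U) : x * z - z * x = 0 := by
  induction hz using Submodule.span_induction with
  | mem u h => exact hU u h
  | zero => simp
  | add a b _ _ h1 h2 =>
    have : x * (a + b) - (a + b) * x = (x * a - a * x) + (x * b - b * x) := by noncomm_ring
    rw [this, h1, h2, add_zero]
  | smul r a _ h1 => rw [mul_smul_comm, smul_mul_assoc, ← smul_sub, h1, smul_zero]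

end

theorem clb (gwb : GwbStmt) (int : IntStmt) (cry : CryStmt) (rys : RysStmt) (wtr : WtrStmt)
    (hvt : HvtStmt) : ClbStmt := by
  intro X S R hNR l θ hE hmax hne x hx hcom
  by_contra hx0
  obtain ⟨gw1, gw2, gw3, gw4, gw5⟩ := gwb X S
  have hray : Ray X := rys X ⟨S⟩
  have xw : WtV X (R.rt l) x := span_wtv R (R.rt l) hx
  have xr : RtV X (R.rt l) x := ⟨xw, hx0⟩
  obtain ⟨xg, hpos⟩ := gw1 _ _ xr
  have hρ0 : R.rt l ≠ 0 := by
    intro h
    rw [h] at hpos
    simp at hpos
  have hR := ip_self_pos hρ0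
  by_cases h2 : IsRt X ((2 : ℝ) • R.rt l)
  · -- case 2
    obtain ⟨w, hw⟩ := h2
    obtain ⟨wg, -⟩ := gw1 _ _ hw
    have h20 : (2 : ℝ) • R.rt l ≠ 0 := by
      intro h
      rcases smul_eq_zero.1 h with h | h
      · norm_num at h
      · exact hρ0 h
    -- the general claim
    have star : ∀ (κ : X.b →ₗ[ℝ] ℝ) (z : Matrix (Fin X.m) (Fin X.m) ℝ), GW S κ z →
        (∀ c : ℝ, κ ≠ c • R.rt l) → ip X κ (R.rt l) < 0 →
        ip X κ (R.rt l) = - ip X (R.rt l) (R.rt l) ∧
        GW S (R.rt l + κ) (x * z - z * x) ∧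
        GW S (R.rt l + (R.rt l + κ)) (x * (x * z - z * x) - (x * z - z * x) * x) := by
      intro κ z hz hκ hneg
      obtain ⟨⟨n, hn⟩, -⟩ := int X S ((2 : ℝ) • R.rt l) κ w z wg h20 hz
      rw [ip_smul_right, ip_smul_left, ip_smul_right] at hn
      obtain ⟨n', k, c1, -, c3⟩ := cry X S (R.rt l) κ x z xg hz hρ0 hκ
      have e1 : ip X κ (R.rt l) = n * ip X (R.rt l) (R.rt l) := by linarith
      have e2 : ((2 * n : ℤ) : ℝ) = (n' : ℝ) := by
        have : ((2 * n : ℤ) : ℝ) * ip X (R.rt l) (R.rt l) =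
            (n' : ℝ) * ip X (R.rt l) (R.rt l) := by
          push_cast
          rw [← c1, e1]
          ring
        exact mul_right_cancel₀ hR.ne' this
      have e3 : 2 * n = n' := by exact_mod_cast e2
      have hnneg : n < 0 := by
        by_contra h
        push Not at h
        have : (0 : ℝ) ≤ (n : ℝ) := by exact_mod_cast h
        have := mul_nonneg this hR.le
        linarith
      have e4 : n = -1 := by
        rcases c3 with h | h | h
        · omega
        · omega
        · obtain ⟨h1, h2, h3⟩ := h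
          rw [← e3] at h3
          by_contra h4
          have h5 : n ≤ -2 := by omega
          nlinarith
      have e5 : ip X κ (R.rt l) = - ip X (R.rt l) (R.rt l) := by
        rw [e1, e4]
        push_cast
        ring
      obtain ⟨-, i2, i3⟩ := int X S (R.rt l) κ x z xg hρ0 hz
      have g1 := gw4 _ _ _ _ xg hz (i2 hneg)
      exact ⟨e5, g1, gw4 _ _ _ _ xg g1 (i3 e5)⟩
    have star2 : ∀ (κ : X.b →ₗ[ℝ] ℝ) (z : Matrix (Fin X.m) (Fin X.m) ℝ), GW S κ z →
        (∀ c : ℝ, κ ≠ c • R.rt l) → ip X κ (R.rt l) < 0 → ¬ 0 < (R.rt l + κ) S.a₀ := by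
      intro κ z hz hκ hneg hp
      obtain ⟨-, s2, s3⟩ := star κ z hz hκ hneg
      have hr := gw2 _ _ s2 hp
      have hs := (wtr X R (R.rt l + κ)).1 _ hr.1
      apply s3.2.1
      refine comm_span x ?_ hs
      rintro _ ⟨t, ht, rfl⟩
      apply hcom
      intro c hc
      apply hκ (c - 1)
      have ht' : R.rt t = R.rt l + κ := ht
      rw [ht'] at hc
      refine LinearMap.ext fun a => ?_
      have h9 := congrArg (fun f : X.b →ₗ[ℝ] ℝ => f a) hc
      simp only [LinearMap.add_apply, LinearMap.smul_apply, LinearMap.neg_apply, LinearMap.zero_apply,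
        smul_eq_mul] at h9 ⊢
      linarith
    have main : ∀ (κ : X.b →ₗ[ℝ] ℝ) (z : Matrix (Fin X.m) (Fin X.m) ℝ), GW S κ z →
        (∀ c : ℝ, κ ≠ c • R.rt l) → ip X κ (R.rt l) < 0 → False := by
      intro κ z hz hκ hneg
      obtain ⟨s1, s2, s3⟩ := star κ z hz hκ hneg
      have h0 : (R.rt l + κ) S.a₀ ≠ 0 := by
        intro h
        have h1 := gw5 _ _ s2 h
        apply hκ (-1)
        refine LinearMap.ext fun a => ?_
        have h9 := congrArg (fun f : X.b →ₗ[ℝ] ℝ => f a) h1
        simp only [LinearMap.add_apply, LinearMap.smul_apply, LinearMap.neg_apply, LinearMap.zero_apply,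
          smul_eq_mul] at h9 ⊢
        linarith
      rcases lt_or_gt_of_ne h0 with h | h
      · have s4 := gw3 _ _ s3
        refine star2 _ _ s4 ?_ ?_ ?_
        · intro c hc
          apply hκ (-c - 2)
          refine LinearMap.ext fun a => ?_
          have h9 := congrArg (fun f : X.b →ₗ[ℝ] ℝ => f a) hc
          simp only [LinearMap.add_apply, LinearMap.smul_apply, LinearMap.neg_apply, LinearMap.zero_apply,
            smul_eq_mul] at h9 ⊢
          linarith
        · rw [ip_neg_left, ip_add_left, ip_add_left, s1]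
          linarith
        · simp only [LinearMap.add_apply, LinearMap.neg_apply] at h ⊢
          linarith
      · exact star2 κ z hz hκ hneg h
    -- the root which is not orthogonal
    obtain ⟨l', hl1, hl2⟩ : ∃ l', (∀ c : ℝ, R.rt l' ≠ c • R.rt l) ∧
        ip X (R.rt l) (R.rt l') ≠ 0 := by
      rcases hNR l with h | h
      · exact h
      · exfalso
        obtain ⟨s, hs⟩ := (wtr X R ((2 : ℝ) • R.rt l)).2.1 ⟨w, hw⟩
        have h1 : ip X (R.rt l) (R.rt s) ≠ 0 := by
          rw [hs, ip_smul_right]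
          positivity
        have h3 := h s h1
        rw [h3] at hs
        apply hρ0
        have h4 : (2 : ℝ) • R.rt l - R.rt l = 0 := by rw [← hs, sub_self]
        rw [two_smul] at h4
        simpa using h4
    obtain ⟨zg, -⟩ := gw1 _ _ (rb_rtv R l')
    rw [ip_comm] at hl2
    rcases lt_or_gt_of_ne hl2 with h | h
    · exact main _ _ zg hl1 h
    · refine main _ _ (gw3 _ _ zg) ?_ ?_
      · intro c hc
        apply hl1 (-c)
        refine LinearMap.ext fun a => ?_
        have h9 := congrArg (fun f : X.b →ₗ[ℝ] ℝ => f a) hc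
        simp only [LinearMap.add_apply, LinearMap.smul_apply, LinearMap.neg_apply, LinearMap.zero_apply,
          smul_eq_mul] at h9 ⊢
        linarith
      · rw [ip_neg_left]
        linarith
  · -- case 1
    apply hne
    refine hvt X S R l θ x hE hmax xr fun k => ?_
    by_cases hk : ∀ c : ℝ, R.rt k ≠ c • R.rt l
    · exact hcom k hk
    · push Not at hk
      obtain ⟨c, hc⟩ := hk
      by_contra hb
      obtain ⟨kg, kpos⟩ := gw1 _ _ (rb_rtv R k)
      have g1 := gw4 _ _ _ _ xg kg hb
      have hr := gw2 _ _ g1 (by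
        rw [LinearMap.add_apply]
        exact add_pos hpos kpos)
      have hc' : IsRt X (c • R.rt l) := ⟨R.e k, by rw [← hc]; exact rb_rtv R k⟩
      rcases hray (R.rt l) c ⟨x, xr⟩ hc' with h | h | h
      · apply h2
        have e0 : R.rt l + R.rt k = (2 : ℝ) • R.rt l := by
          rw [hc, h]
          module
        rw [e0] at hr
        exact ⟨x * R.e k - R.e k * x, hr⟩
      · apply h2
        rw [← h]
        exact hc'
      · have e1 : R.rt l + R.rt k = (3 : ℝ) • R.rt k := by
          rw [hc, h]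
          module
        rw [e1] at hr
        rcases hray (R.rt k) 3 ⟨_, rb_rtv R k⟩ ⟨_, hr⟩ with h' | h' | h' <;> norm_num at h'

end Pool.Agent.QSB.H57
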